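import Pool.Agent.Y754.PP.Class

/-!
# All sign sequences with correlated discrepancy one

The sign sequences `f` with `|∑_{k ≤ n} f (k d) f (k d + d)| ≤ 1` for all `d, n ≥ 1` are exactly
those with `f (2 ^ j (2 m + 1)) = (-1) ^ m ε_j` for arbitrary signs `ε_j`.  For these (and for
arbitrary unimodular `ε_j`) the sums with shift `h` are at most `h` for every odd `h`, whereas for
every even `h > 0` they are unbounded for signs.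
-/

set_option autoImplicit false

open Finset

namespace Pool.Agent.Results.MP_4efd57_nt.AllMinimalSequences

open Pool.Agent.Y754.PP

theorem result :
    (∀ f : ℕ → ℂ, (∀ n : ℕ, 1 ≤ n → f n = 1 ∨ f n = -1) →
      ((∀ d n : ℕ, 1 ≤ d → 1 ≤ n → ‖∑ k ∈ Icc 1 n, f (k * d) * f (k * d + d)‖ ≤ 1) ↔
        ∃ ε : ℕ → ℂ, (∀ j, ε j = 1 ∨ ε j = -1) ∧
          ∀ j m : ℕ, f (2 ^ j * (2 * m + 1)) = (-1) ^ m * ε j)) ∧
    (∀ ε f : ℕ → ℂ, (∀ j, ‖ε j‖ = 1) → (∀ j m : ℕ, f (2 ^ j * (2 * m + 1)) = (-1) ^ m * ε j) →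
      ∀ h : ℕ, Odd h → ∀ d n : ℕ, 1 ≤ d → 1 ≤ n →
        ‖∑ k ∈ Icc 1 n, f (k * d) * f (k * d + h * d)‖ ≤ h) ∧
    (∀ ε f : ℕ → ℂ, (∀ j, ε j = 1 ∨ ε j = -1) →
      (∀ j m : ℕ, f (2 ^ j * (2 * m + 1)) = (-1) ^ m * ε j) →
      ∀ h : ℕ, Even h → h ≠ 0 → ∀ C : ℝ, ∃ n : ℕ, 1 ≤ n ∧
        C < ‖∑ k ∈ Icc 1 n, f k * f (k + h)‖) ∧
    (∀ z : ℂ, ‖z‖ = 1 → ∃ f : ℕ → ℂ, (∀ n : ℕ, 1 ≤ n → ‖f n‖ = 1) ∧
      (∀ m n : ℕ, 1 ≤ m → 1 ≤ n → f (m * n) = f m * f n) ∧ f 2 = z ∧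
      ∀ j m : ℕ, f (2 ^ j * (2 * m + 1)) = (-1) ^ m * z ^ j) ∧
    (∀ f : ℕ → ℂ, (∀ n : ℕ, 1 ≤ n → f n = 1 ∨ f n = -1) →
      (∀ m n : ℕ, 1 ≤ m → 1 ≤ n → f (m * n) = f m * f n) →
      ((∀ d n : ℕ, 1 ≤ d → 1 ≤ n → ‖∑ k ∈ Icc 1 n, f (k * d) * f (k * d + d)‖ ≤ 1) ↔
        ∀ m : ℕ, f (2 * m + 1) = (-1) ^ m)) := by
  have hcl : ∀ f : ℕ → ℂ, (∀ n : ℕ, 1 ≤ n → f n = 1 ∨ f n = -1) →
      ((∀ d n : ℕ, 1 ≤ d → 1 ≤ n → ‖∑ k ∈ Icc 1 n, f (k * d) * f (k * d + d)‖ ≤ 1) ↔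
        ∃ ε : ℕ → ℂ, (∀ j, ε j = 1 ∨ ε j = -1) ∧
          ∀ j m : ℕ, f (2 ^ j * (2 * m + 1)) = (-1) ^ m * ε j) := by
    intro f hf
    refine ⟨fun hb => paper_of_bound f hf hb, ?_⟩
    rintro ⟨ε, hε, hP⟩ d n hd _
    have hε1 : ∀ j, ‖ε j‖ = 1 := by
      intro j
      rcases hε j with h | h <;> rw [h] <;> simp
    have h := Paper.bound (ε := ε) (f := f) hP hε1 0 d n hd
    simpa using h
  refine ⟨hcl, ?_, ?_, ?_, ?_⟩
  · rintro ε f hε hP h ⟨c, rfl⟩ d n hd _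
    have h := Paper.bound (ε := ε) (f := f) hP hε c d n hd
    push_cast
    exact h
  · intro ε f hε hP h hh h0 C
    exact even_unbounded (ε := ε) (f := f) hP hε h hh h0 C
  · intro z hz
    have hP := mul_paper z
    refine ⟨mul z, ?_, fun m n hm hn => mul_mul z m n hm hn, mul_two z, hP⟩
    intro n hn
    exact hP.norm (fun j => by rw [norm_pow, hz, one_pow]) n hn
  · intro f hf hmul
    have h1 : f 1 = 1 := by
      have h := hmul 1 1 le_rfl le_rfl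
      rw [mul_one] at h
      rcases hf 1 le_rfl with h' | h'
      · exact h'
      · rw [h'] at h
        norm_num at h
    rw [hcl f hf]
    constructor
    · rintro ⟨ε, hε, hP⟩ m
      have h2 := hP 0 0
      have h3 := hP 0 m
      simp only [pow_zero, one_mul, mul_zero, zero_add] at h2 h3
      rw [h3, ← h2, h1, mul_one]
    · intro h
      refine ⟨fun j => f (2 ^ j), fun j => hf _ Nat.one_le_two_pow, fun j m => ?_⟩
      rw [hmul _ _ Nat.one_le_two_pow (by omega), h m, mul_comm]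

end Pool.Agent.Results.MP_4efd57_nt.AllMinimalSequences
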