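import Mathlib
import Pool.Agent.H633R3.Corr5

/-!
# Correlated discrepancy sums: all shifts not divisible by four, and products of any number of
# functions against `e (k ^ 2 α)`

Both questions of `MP_4efd57_nt`. For the constant weight ONE completely multiplicative function
with values `1` and `-1` has bounded correlated sums along all homogeneous progressions for EVERY
shift `h` which is not divisible by four. For the quadratic weight the sums of products of ANY
number of unimodular functions with any shifts are unbounded.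
-/

set_option autoImplicit false

namespace Pool.Agent.Results.MP_4efd57_nt.ShiftsAndProducts

open Finset
open scoped ENNReal

/-- `D_w(a, h)`: the supremum over `d, n ≥ 1` of `|∑_{k=1}^n w(k) ∏_j a_j(kd + h_j d)|`, an element
of `[0, ∞]`. -/
noncomputable def D (w : ℕ → ℂ) {l : ℕ} (a : Fin l → ℕ → Circle) (h : Fin l → ℕ) : ℝ≥0∞ :=
  ⨆ (d : ℕ) (_ : 1 ≤ d) (n : ℕ) (_ : 1 ≤ n),
    ENNReal.ofReal ‖∑ k ∈ Icc 1 n, w k * ∏ j, (a j (k * d + h j * d) : ℂ)‖

/-! ### The character modulo 8 and the multiplicative function -/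

/-- the odd character modulo `8` with the values `1, 1, -1, -1` at `1, 3, 5, 7` -/
def chi (n : ℕ) : ℤ :=
  if n % 8 = 1 ∨ n % 8 = 3 then 1 else if n % 8 = 5 ∨ n % 8 = 7 then -1 else 0

lemma chi_mod (n : ℕ) : chi n = chi (n % 8) := by
  unfold chi
  rw [Nat.mod_mod]

lemma chi_mul (m n : ℕ) : chi (m * n) = chi m * chi n := by
  rw [chi_mod (m * n), chi_mod m, chi_mod n, Nat.mul_mod]
  have h1 : m % 8 < 8 := Nat.mod_lt _ (by norm_num)
  have h2 : n % 8 < 8 := Nat.mod_lt _ (by norm_num)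
  generalize m % 8 = a at *
  generalize n % 8 = b at *
  interval_cases a <;> interval_cases b <;> decide

/-- the value at the odd part -/
def f (n : ℕ) : ℤ := chi (n / 2 ^ n.factorization 2)

lemma f_mul (m n : ℕ) : f (m * n) = f m * f n := by
  unfold f
  rw [Nat.ordCompl_mul m n 2, chi_mul]

lemma f_odd (m : ℕ) (hm : m % 2 = 1) : f m = chi m := by
  unfold f
  have h : m.factorization 2 = 0 := by
    apply Nat.factorization_eq_zero_of_not_dvd
    omega
  rw [h]; simp

lemma f_two : f 2 = 1 := by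
  unfold f
  have h : (2 : ℕ).factorization 2 = 1 := Nat.Prime.factorization_self Nat.prime_two
  rw [h]
  decide

lemma f_two_mul (m : ℕ) : f (2 * m) = f m := by
  rw [f_mul, f_two, one_mul]

lemma chi_sq (n : ℕ) (hn : n % 2 = 1) : chi n * chi n = 1 := by
  unfold chi
  have : n % 8 = 1 ∨ n % 8 = 3 ∨ n % 8 = 5 ∨ n % 8 = 7 := by omega
  rcases this with h | h | h | h <;> simp [h]

lemma f_sq (n : ℕ) (hn : 1 ≤ n) : f n * f n = 1 := by
  unfold f
  apply chi_sq
  have := Nat.not_dvd_ordCompl Nat.prime_two (n := n) (by omega)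
  omega

lemma chi_abs (n : ℕ) : |chi n| ≤ 1 := by
  unfold chi
  split_ifs <;> simp

lemma f_abs (n : ℕ) : |f n| ≤ 1 := chi_abs _

/-! ### Telescoping -/

lemma tele_one (F : ℕ → ℤ) (n : ℕ) : ∑ k ∈ Icc 1 n, (F k - F (k + 1)) = F 1 - F (n + 1) := by
  induction n with
  | zero => simp
  | succ n ih => rw [Finset.sum_Icc_succ_top (by omega), ih]; ring

lemma tele_bound (F : ℕ → ℤ) (hF : ∀ k, |F k| ≤ 1) (m n : ℕ) :
    |∑ k ∈ Icc 1 n, (F k - F (k + m))| ≤ 2 * m := by
  induction m with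
  | zero => simp
  | succ m ih =>
    have e : ∑ k ∈ Icc 1 n, (F k - F (k + (m + 1))) =
        ∑ k ∈ Icc 1 n, (F k - F (k + m)) + ∑ k ∈ Icc 1 n, (F (k + m) - F (k + 1 + m)) := by
      rw [← Finset.sum_add_distrib]
      apply Finset.sum_congr rfl
      intro k _
      have : k + (m + 1) = k + 1 + m := by ring
      rw [this]
      ring
    have e2 := tele_one (fun k => F (k + m)) n
    rw [e, e2]
    have h1 := hF (1 + m)
    have h2 := hF (n + 1 + m)
    rw [abs_le] at *
    push_cast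
    constructor <;> linarith [ih.1, ih.2, h1.1, h1.2, h2.1, h2.2]

/-- the part with `j ≡ 0 (mod 4)` -/
def A0 (t j : ℕ) : ℤ := if j % 4 = 0 then f j * chi (j + t) else 0

/-- the part with `j ≡ 2 (mod 4)` -/
def A2 (t j : ℕ) : ℤ := if j % 4 = 2 then f j * chi (j + t) else 0

lemma abs_mul_le {a b : ℤ} (ha : |a| ≤ 1) (hb : |b| ≤ 1) : |a * b| ≤ 1 := by
  rw [abs_mul]
  nlinarith [abs_nonneg a, abs_nonneg b]

lemma A0_abs (t j : ℕ) : |A0 t j| ≤ 1 := by
  unfold A0
  split_ifs
  · exact abs_mul_le (f_abs _) (chi_abs _)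
  · simp

lemma A2_abs (t j : ℕ) : |A2 t j| ≤ 1 := by
  unfold A2
  split_ifs
  · exact abs_mul_le (f_abs _) (chi_abs _)
  · simp

lemma f_add8 (j : ℕ) (hj : j % 4 = 2) : f (j + 8) = - f j := by
  obtain ⟨u, rfl⟩ : ∃ u, j = 2 * u := ⟨j / 2, by omega⟩
  have e : 2 * u + 8 = 2 * (u + 4) := by ring
  rw [e, f_two_mul, f_two_mul, f_odd _ (by omega), f_odd _ (by omega)]
  unfold chi
  have : u % 8 = 1 ∨ u % 8 = 3 ∨ u % 8 = 5 ∨ u % 8 = 7 := by omega
  rcases this with h | h | h | h
  · have h' : (u + 4) % 8 = 5 := by omega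
    simp [h, h']
  · have h' : (u + 4) % 8 = 7 := by omega
    simp [h, h']
  · have h' : (u + 4) % 8 = 1 := by omega
    simp [h, h']
  · have h' : (u + 4) % 8 = 3 := by omega
    simp [h, h']

lemma A2_add8 (t j : ℕ) : A2 t (j + 8) = - A2 t j := by
  unfold A2
  have e : (j + 8) % 4 = j % 4 := by omega
  rw [e]
  split_ifs with h
  · rw [f_add8 j h]
    have : chi (j + 8 + t) = chi (j + t) := by
      rw [chi_mod, chi_mod (j + t)]
      congr 1
      omega
    rw [this]
    ring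
  · simp

lemma chi_flip (j t : ℕ) (ht : t % 2 = 1) (h : (j + t) % 4 = 0) : chi (j + 2 * t) = - chi j := by
  have h1 : j % 8 = 1 ∨ j % 8 = 3 ∨ j % 8 = 5 ∨ j % 8 = 7 := by omega
  have h2 : t % 8 = 1 ∨ t % 8 = 3 ∨ t % 8 = 5 ∨ t % 8 = 7 := by omega
  rw [chi_mod (j + 2 * t), chi_mod j]
  have e : (j + 2 * t) % 8 = (j % 8 + 2 * (t % 8)) % 8 := by omega
  have e' : (j + t) % 4 = (j % 8 + t % 8) % 4 := by omega
  rw [e' ] at h
  rw [e]
  rcases h1 with a | a | a | a <;> rcases h2 with b | b | b | b <;> rw [a, b] at h ⊢ <;>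
    clear e e' <;> revert h <;> decide

lemma chi_same (j t : ℕ) (ht : t % 2 = 1) (h : (j + t) % 4 = 2) : chi (j + 2 * t) = chi j := by
  have h1 : j % 8 = 1 ∨ j % 8 = 3 ∨ j % 8 = 5 ∨ j % 8 = 7 := by omega
  have h2 : t % 8 = 1 ∨ t % 8 = 3 ∨ t % 8 = 5 ∨ t % 8 = 7 := by omega
  rw [chi_mod (j + 2 * t), chi_mod j]
  have e : (j + 2 * t) % 8 = (j % 8 + 2 * (t % 8)) % 8 := by omega
  have e' : (j + t) % 4 = (j % 8 + t % 8) % 4 := by omega
  rw [e' ] at h
  rw [e]
  rcases h1 with a | a | a | a <;> rcases h2 with b | b | b | b <;> rw [a, b] at h ⊢ <;>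
    clear e e' <;> revert h <;> decide

/-- the summand is a sum of differences -/
lemma split_odd (t j : ℕ) (ht : t % 2 = 1) :
    2 * (f j * f (j + t)) = 2 * (A0 t j - A0 t (j + t)) + (A2 t j - A2 t (j + 8)) +
      (A2 t (j + t) - A2 t (j + t + 8)) := by
  rw [A2_add8, A2_add8]
  have hj : j % 4 = 0 ∨ j % 4 = 2 ∨ j % 2 = 1 := by omega
  rcases hj with h | h | h
  · have a1 : A0 t j = f j * chi (j + t) := by unfold A0; rw [if_pos h]
    have a2 : A0 t (j + t) = 0 := by unfold A0; rw [if_neg (by omega)]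
    have a3 : A2 t j = 0 := by unfold A2; rw [if_neg (by omega)]
    have a4 : A2 t (j + t) = 0 := by unfold A2; rw [if_neg (by omega)]
    rw [a1, a2, a3, a4, f_odd (j + t) (by omega)]
    ring
  · have a1 : A0 t j = 0 := by unfold A0; rw [if_neg (by omega)]
    have a2 : A0 t (j + t) = 0 := by unfold A0; rw [if_neg (by omega)]
    have a3 : A2 t j = f j * chi (j + t) := by unfold A2; rw [if_pos h]
    have a4 : A2 t (j + t) = 0 := by unfold A2; rw [if_neg (by omega)]
    rw [a1, a2, a3, a4, f_odd (j + t) (by omega)]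
    ring
  · have a1 : A0 t j = 0 := by unfold A0; rw [if_neg (by omega)]
    have a3 : A2 t j = 0 := by unfold A2; rw [if_neg (by omega)]
    have e : j + t + t = j + 2 * t := by ring
    have hjt : (j + t) % 4 = 0 ∨ (j + t) % 4 = 2 := by omega
    rcases hjt with h' | h'
    · have a2 : A0 t (j + t) = f (j + t) * chi (j + 2 * t) := by
        unfold A0; rw [if_pos h', e]
      have a4 : A2 t (j + t) = 0 := by unfold A2; rw [if_neg (by omega)]
      rw [a1, a2, a3, a4, f_odd j h, chi_flip j t ht h']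
      ring
    · have a2 : A0 t (j + t) = 0 := by unfold A0; rw [if_neg (by omega)]
      have a4 : A2 t (j + t) = f (j + t) * chi (j + 2 * t) := by
        unfold A2; rw [if_pos h', e]
      rw [a1, a2, a3, a4, f_odd j h, chi_same j t ht h']
      ring

lemma bound_odd (t n : ℕ) (ht : t % 2 = 1) :
    |∑ j ∈ Icc 1 n, f j * f (j + t)| ≤ 2 * t + 16 := by
  have h1 := tele_bound (A0 t) (A0_abs t) t n
  have h2 := tele_bound (A2 t) (A2_abs t) 8 n
  have h3 := tele_bound (fun j => A2 t (j + t)) (fun j => A2_abs t _) 8 n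
  have e : 2 * ∑ j ∈ Icc 1 n, f j * f (j + t) =
      2 * ∑ j ∈ Icc 1 n, (A0 t j - A0 t (j + t)) + ∑ j ∈ Icc 1 n, (A2 t j - A2 t (j + 8)) +
        ∑ j ∈ Icc 1 n, (A2 t (j + t) - A2 t (j + 8 + t)) := by
    rw [Finset.mul_sum, Finset.mul_sum, ← Finset.sum_add_distrib, ← Finset.sum_add_distrib]
    apply Finset.sum_congr rfl
    intro j _
    rw [split_odd t j ht]
    have : j + t + 8 = j + 8 + t := by ring
    rw [this]
  rw [abs_le] at *
  push_cast at *
  constructor <;> linarith [h1.1, h1.2, h2.1, h2.2, h3.1, h3.2]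

/-- the odd part for even shifts -/
def V (t k : ℕ) : ℤ := if k % 2 = 1 then chi k * chi (k + 2 * t) else 0

lemma V_add2 (t k : ℕ) (ht : t % 2 = 1) : V t (k + 2) = - V t k := by
  unfold V
  have e : (k + 2) % 2 = k % 2 := by omega
  rw [e]
  split_ifs with h
  · have h1 : k % 8 = 1 ∨ k % 8 = 3 ∨ k % 8 = 5 ∨ k % 8 = 7 := by omega
    have h2 : t % 4 = 1 ∨ t % 4 = 3 := by omega
    rw [chi_mod (k + 2), chi_mod (k + 2 + 2 * t), chi_mod k, chi_mod (k + 2 * t)]
    have e1 : (k + 2) % 8 = (k % 8 + 2) % 8 := by omega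
    have e2 : (k + 2 + 2 * t) % 8 = (k % 8 + 2 + 2 * (t % 4)) % 8 := by omega
    have e3 : (k + 2 * t) % 8 = (k % 8 + 2 * (t % 4)) % 8 := by omega
    rw [e1, e2, e3]
    rcases h1 with a | a | a | a <;> rcases h2 with b | b <;> rw [a, b] <;> decide
  · simp

lemma V_abs (t k : ℕ) : |V t k| ≤ 1 := by
  unfold V
  split_ifs
  · exact abs_mul_le (chi_abs _) (chi_abs _)
  · simp

lemma sum_even (t n : ℕ) :
    ∑ k ∈ Icc 1 n, f k * f (k + 2 * t) =
      ∑ j ∈ Icc 1 (n / 2), f j * f (j + t) + ∑ k ∈ Icc 1 n, V t k := by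
  induction n with
  | zero => simp
  | succ n ih =>
    rw [Finset.sum_Icc_succ_top (by omega), Finset.sum_Icc_succ_top (by omega), ih]
    rcases Nat.even_or_odd' n with ⟨m, hm | hm⟩
    · have h1 : (n + 1) / 2 = n / 2 := by omega
      have h2 : V t (n + 1) = f (n + 1) * f (n + 1 + 2 * t) := by
        unfold V
        rw [if_pos (by omega), f_odd (n + 1) (by omega), f_odd (n + 1 + 2 * t) (by omega)]
      rw [h1, h2]
      ring
    · have h1 : (n + 1) / 2 = n / 2 + 1 := by omega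
      have h2 : V t (n + 1) = 0 := by
        unfold V
        rw [if_neg (by omega)]
      have h3 : n + 1 = 2 * (n / 2 + 1) := by omega
      have h4 : f (n + 1) * f (n + 1 + 2 * t) = f (n / 2 + 1) * f (n / 2 + 1 + t) := by
        have h5 : n + 1 + 2 * t = 2 * (n / 2 + 1 + t) := by omega
        rw [h5, f_two_mul, h3, f_two_mul]
      rw [h1, h2, Finset.sum_Icc_succ_top (by omega), h4]
      ring

lemma bound_even (t n : ℕ) (ht : t % 2 = 1) :
    |∑ k ∈ Icc 1 n, f k * f (k + 2 * t)| ≤ 2 * t + 18 := by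
  rw [sum_even]
  have h1 := bound_odd t (n / 2) ht
  have h2 := tele_bound (V t) (V_abs t) 2 n
  have e : ∑ k ∈ Icc 1 n, (V t k - V t (k + 2)) = 2 * ∑ k ∈ Icc 1 n, V t k := by
    rw [Finset.mul_sum]
    apply Finset.sum_congr rfl
    intro k _
    rw [V_add2 t k ht]
    ring
  rw [e] at h2
  rw [abs_le] at *
  push_cast at *
  constructor <;> linarith [h1.1, h1.2, h2.1, h2.2]

/-- bounded correlations for all shifts which are not divisible by four -/
lemma bound_all (h n : ℕ) (hh : ¬ 4 ∣ h) : |∑ k ∈ Icc 1 n, f k * f (k + h)| ≤ 2 * h + 18 := by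
  have : h % 2 = 1 ∨ h % 4 = 2 := by omega
  rcases this with h1 | h1
  · have := bound_odd h n h1
    linarith
  · obtain ⟨t, rfl⟩ : ∃ t, h = 2 * t := ⟨h / 2, by omega⟩
    have := bound_even t n (by omega)
    push_cast
    linarith [(Nat.cast_nonneg t : (0 : ℤ) ≤ t)]

/-- **(1)** (constant weight, Q1) There is a completely multiplicative `F : ℕ → {-1, 1}` such that
for EVERY shift `h` which is not divisible by four (for example `h = 1`)
`|∑_{k ≤ n} F(kd) F(kd + hd)| ≤ 2h + 18` for all `d, n ≥ 1`.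

**(2)** (quadratic weight, Q2) For every irrational `α`, every number `l` of functions
`a_1, …, a_l : ℕ → 𝕊` and all shifts `h_1, …, h_l`, the sums
`∑_{k ≤ n} e(k² α) ∏_j a_j(kd + h_j d)` are unbounded over `d, n ≥ 1`. -/
theorem result :
    (∃ F : ℕ → ℂ, (∀ n : ℕ, 1 ≤ n → F n = 1 ∨ F n = -1) ∧
      (∀ m n : ℕ, F (m * n) = F m * F n) ∧
      ∀ h : ℕ, ¬ 4 ∣ h → ∀ d n : ℕ, 1 ≤ d → 1 ≤ n →
        ‖∑ k ∈ Icc 1 n, F (k * d) * F (k * d + h * d)‖ ≤ 2 * h + 18) ∧
    ∀ α : ℝ, Irrational α → ∀ (l : ℕ) (a : Fin l → ℕ → Circle) (h : Fin l → ℕ),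
      D (fun k => Complex.exp (2 * Real.pi * Complex.I * ((k : ℂ) ^ 2 * α))) a h = ⊤ := by
  refine ⟨⟨fun n => ((f n : ℤ) : ℂ), ?_, ?_, ?_⟩, ?_⟩
  · intro n hn
    have h := f_sq n hn
    have h' : (f n - 1) * (f n + 1) = 0 := by linear_combination h
    rcases mul_eq_zero.mp h' with h1 | h1
    · left
      have : f n = 1 := by linarith
      simp [this]
    · right
      have : f n = -1 := by linarith
      simp [this]
  · intro m n
    simp only [f_mul]
    push_cast
    ring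
  · intro h hh d n hd _
    have e : ∑ k ∈ Icc 1 n, ((f (k * d) : ℤ) : ℂ) * ((f (k * d + h * d) : ℤ) : ℂ)
        = ((∑ k ∈ Icc 1 n, f k * f (k + h) : ℤ) : ℂ) := by
      push_cast
      apply Finset.sum_congr rfl
      intro k _
      have h1 : k * d + h * d = (k + h) * d := by ring
      have h2 := f_sq d hd
      rw [h1, f_mul k d, f_mul (k + h) d]
      have h3 : ((f d : ℤ) : ℂ) * ((f d : ℤ) : ℂ) = 1 := by exact_mod_cast h2
      push_cast
      linear_combination ((f k : ℤ) : ℂ) * ((f (k + h) : ℤ) : ℂ) * h3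
    simp only at e ⊢
    rw [e, Complex.norm_intCast]
    exact_mod_cast bound_all h n hh
  · intro α hα l a h
    by_contra hne
    obtain ⟨C, hC⟩ : ∃ C : NNReal, (C : ℝ≥0∞) =
        D (fun k => Complex.exp (2 * Real.pi * Complex.I * ((k : ℂ) ^ 2 * α))) a h :=
      ⟨_, ENNReal.coe_toNNReal hne⟩
    refine Pool.Agent.H633R3.Corr.no_bound a h hα (C : ℝ) fun d n hd hn => ?_
    have h1 : ENNReal.ofReal ‖∑ k ∈ Icc 1 n, Complex.exp (2 * Real.pi * Complex.I *
        ((k : ℂ) ^ 2 * α)) * ∏ j, (a j (k * d + h j * d) : ℂ)‖ ≤ C := by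
      rw [hC]
      unfold D
      exact le_iSup_of_le d (le_iSup_of_le hd (le_iSup_of_le n (le_iSup_of_le hn le_rfl)))
    rw [ENNReal.ofReal_le_iff_le_toReal ENNReal.coe_ne_top, ENNReal.coe_toReal] at h1
    refine le_of_eq_of_le ?_ h1
    congr 1
    refine Finset.sum_congr rfl fun k _ => ?_
    have e1 : ∀ j, d * (k + h j) = k * d + h j * d := fun j => by ring
    simp only [e1]
    congr 1
    unfold Pool.Agent.H633R3.Corr.e
    congr 1
    push_cast
    ring

end Pool.Agent.Results.MP_4efd57_nt.ShiftsAndProducts
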